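import Pool.Agent.H690CV.Grow

set_option autoImplicit false

/-!
# Monochromatic convex `p`-gons: `log g(p) = O(p² log p)`

`g p` is the least `n` such that every `n` points of the plane in general position, with the
pairs coloured by two colours, contain `p` points in convex position all of whose pairs have one
colour.  We show `g p ≤ (4 (p - 2)² + 3) ^ (2 (p - 2)² + 1)`, hence
`log₂ (g p) ≤ 4 p² log₂ (2 p)`.
-/

namespace Pool.Agent.Results.MP_6c3374_co.UpperBound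

/-- `P` is in general position: no three distinct points of `P` are collinear. -/
def GenPos (P : Finset (ℝ × ℝ)) : Prop :=
  ∀ a ∈ P, ∀ b ∈ P, ∀ c ∈ P, a ≠ b → a ≠ c → b ≠ c →
    ¬ Collinear ℝ ({a, b, c} : Set (ℝ × ℝ))

/-- `K` is in convex position: no point of `K` lies in the convex hull of the others. -/
def ConvPos (K : Finset (ℝ × ℝ)) : Prop :=
  ∀ a ∈ K, a ∉ convexHull ℝ ((K : Set (ℝ × ℝ)) \ {a})

/-- Every `n` points in general position with two-coloured pairs contain `p` points in convex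
position whose pairs all have the same colour. -/
def Forces (p n : ℕ) : Prop :=
  ∀ P : Finset (ℝ × ℝ), P.card = n → GenPos P → ∀ χ : Sym2 (ℝ × ℝ) → Bool,
    ∃ K ⊆ P, K.card = p ∧ ConvPos K ∧ ∃ b : Bool, ∀ x ∈ K, ∀ y ∈ K, x ≠ y → χ s(x, y) = b

/-- The least `n` with `Forces p n`. -/
noncomputable def g (p : ℕ) : ℕ := sInf {n | Forces p n}

theorem forces_of_le (p n : ℕ) (hp : 3 ≤ p)
    (hn : (4 * (p - 2) ^ 2 + 3) ^ (2 * (p - 2) ^ 2 + 1) ≤ n) : Forces p n := by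
  intro P hP hG χ
  obtain ⟨q, rfl⟩ : ∃ q, p = q + 2 := ⟨p - 2, by omega⟩
  have hGen : H690CV.Gen P := by
    intro a ha b hb c hc hab hac hbc h0
    exact hG a ha b hb c hc hab hac hbc (H690CV.collinear_of_orient hab h0)
  have hcard : (2 * (2 * (q * q) + 1) + 1) ^ (2 * (q * q) + 1) ≤ P.card := by
    have h1 : q + 2 - 2 = q := by omega
    rw [h1] at hn
    have h2 : 4 * q ^ 2 + 3 = 2 * (2 * (q * q) + 1) + 1 := by ring
    have h3 : 2 * q ^ 2 + 1 = 2 * (q * q) + 1 := by ring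
    rw [h2, h3] at hn
    omega
  obtain ⟨K, hKP, hKc, hb, σ, hσ⟩ := H690CV.main χ P hGen q hcard
  exact ⟨K, hKP, hKc, H690CV.convPos_of_orient (by omega) hσ, hb⟩

/-- For every `p ≥ 3`, the number `g p` is well defined (the property holds at `g p`), it is at
most `(4 (p - 2)² + 3) ^ (2 (p - 2)² + 1)`, and its logarithm to base two is at most
`4 p² log₂ (2 p)`. -/
theorem result :
    ∀ p : ℕ, 3 ≤ p →
      Forces p (g p) ∧
      g p ≤ (4 * (p - 2) ^ 2 + 3) ^ (2 * (p - 2) ^ 2 + 1) ∧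
      Real.logb 2 (g p) ≤ 4 * (p : ℝ) ^ 2 * Real.logb 2 (2 * p) := by
  intro p hp
  have hmem := forces_of_le p _ hp le_rfl
  have hne : {n | Forces p n}.Nonempty := ⟨_, hmem⟩
  have hF : Forces p (g p) := Nat.sInf_mem hne
  have hle : g p ≤ (4 * (p - 2) ^ 2 + 3) ^ (2 * (p - 2) ^ 2 + 1) := Nat.sInf_le hmem
  refine ⟨hF, hle, ?_⟩
  have hle2 : g p ≤ (2 * p) ^ (4 * p ^ 2) := by
    refine hle.trans ?_
    obtain ⟨q, rfl⟩ : ∃ q, p = q + 2 := ⟨p - 2, by omega⟩
    have h1 : q + 2 - 2 = q := by omega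
    rw [h1]
    have h2 : 4 * q ^ 2 + 3 ≤ (2 * (q + 2)) ^ 2 := by nlinarith
    have h3 : 2 * q ^ 2 + 1 ≤ 2 * (q + 2) ^ 2 := by nlinarith
    calc (4 * q ^ 2 + 3) ^ (2 * q ^ 2 + 1) ≤ ((2 * (q + 2)) ^ 2) ^ (2 * q ^ 2 + 1) :=
          Nat.pow_le_pow_left h2 _
      _ ≤ ((2 * (q + 2)) ^ 2) ^ (2 * (q + 2) ^ 2) :=
          Nat.pow_le_pow_right (by positivity) h3
      _ = (2 * (q + 2)) ^ (4 * (q + 2) ^ 2) := by rw [← pow_mul]; congr 1; ring
  have hlog : Real.logb 2 (((2 * p) ^ (4 * p ^ 2) : ℕ) : ℝ)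
      = 4 * (p : ℝ) ^ 2 * Real.logb 2 (2 * p) := by
    push_cast
    rw [Real.logb_pow]
    push_cast
    ring
  rw [← hlog]
  rcases Nat.eq_zero_or_pos (g p) with h0 | h0
  · rw [h0]
    simp only [Nat.cast_zero, Real.logb_zero]
    apply Real.logb_nonneg (by norm_num)
    exact_mod_cast Nat.one_le_pow _ _ (by omega)
  · apply Real.logb_le_logb_of_le (by norm_num)
    · exact_mod_cast h0
    · exact_mod_cast hle2

end Pool.Agent.Results.MP_6c3374_co.UpperBound
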